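import Mathlib
import Pool.Agent.Lib.helper10.Dist

namespace Pool.Agent.Results.MP_93535d_co.Example
open Finset Pool.Agent.Lib.helper10.Dist

variable {V : Type} [Fintype V]

/-- eccentricity. -/
noncomputable def ecc (G : SimpleGraph V) (v : V) : ℕ := univ.sup (fun u => G.dist u v)

/-- costs of dominating broadcasts. -/
def broadcastCosts (G : SimpleGraph V) : Set ℕ :=
  {c | ∃ f : V → ℕ, (∀ v, f v ≤ ecc G v) ∧ (∀ u, ∃ v, 1 ≤ f v ∧ G.dist u v ≤ f v) ∧ c = ∑ v, f v}

/-- sizes of multipackings. -/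
def multipackingSizes (G : SimpleGraph V) : Set ℕ :=
  {m | ∃ M : Finset V, (∀ v k, 1 ≤ k → (M.filter (fun u => G.dist u v ≤ k)).card ≤ k) ∧ m = M.card}

/-- objective values of feasible points of the linear program. -/
def fractionalCosts (G : SimpleGraph V) : Set ℝ :=
  {c | ∃ x : V → ℕ → ℝ, (∀ v k, 0 ≤ x v k) ∧
    (∀ u, 1 ≤ ∑ v, ∑ k ∈ (Icc 1 (ecc G v)).filter (fun k => G.dist u v ≤ k), x v k) ∧
    c = ∑ v, ∑ k ∈ Icc 1 (ecc G v), (k : ℝ) * x v k}

def D (u v : ℕ) : ℕ :=
  (if u / 12 = v / 12 then 0 else 1) + (11027682440 >>> (3 * ((u + 24 - v) % 12))) % 8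

def G0 : SimpleGraph (Fin 24) where
  Adj a b := D a.val b.val = 1
  symm := ⟨by decide +kernel⟩
  loopless := ⟨by decide +kernel⟩

instance : DecidableRel G0.Adj := fun a b => inferInstanceAs (Decidable (D a.val b.val = 1))

lemma dist0 (u v : Fin 24) : G0.dist u v = D u.val v.val :=
  dist_eq G0 (fun a b => D a.val b.val) (by decide +kernel) (by decide +kernel)
    (by decide +kernel) v u

lemma ecc0 (v : Fin 24) : ecc G0 v = 4 := by
  simp only [ecc, dist0]
  revert v
  decide +kernel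

lemma ball (v : Fin 24) (k : ℕ) (h1 : 1 ≤ k) (h4 : k ≤ 4) :
    (univ.filter (fun u : Fin 24 => D u.val v.val ≤ k)).card + k % 2 ≤ 8 * k := by
  interval_cases k <;> revert v <;> decide +kernel

lemma ball2 (u : Fin 24) : (univ.filter (fun v : Fin 24 => D u.val v.val ≤ 2)).card = 16 := by
  revert u
  decide +kernel

lemma bc : IsLeast (broadcastCosts G0) 4 := by
  constructor
  · refine ⟨fun v => if v = 0 then 4 else 0, ?_, ?_, by decide +kernel⟩
    · simp only [ecc0]; decide +kernel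
    · simp only [dist0]; decide +kernel
  · rintro c ⟨f, h1, h2, hc⟩
    rw [hc]
    simp only [ecc0, dist0] at h1 h2
    have a1 : (univ : Finset (Fin 24)) ⊆ univ.biUnion
        (fun v => univ.filter (fun u : Fin 24 => 1 ≤ f v ∧ D u.val v.val ≤ f v)) := by
      intro u _
      obtain ⟨v, hv⟩ := h2 u
      exact mem_biUnion.mpr ⟨v, mem_univ _, mem_filter.mpr ⟨mem_univ _, hv⟩⟩
    have a2 := (card_le_card a1).trans card_biUnion_le
    have a3 : ∀ v ∈ (univ : Finset (Fin 24)),
        (univ.filter (fun u : Fin 24 => 1 ≤ f v ∧ D u.val v.val ≤ f v)).card + f v % 2 ≤ 8 * f v := by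
      intro v _
      by_cases h : 1 ≤ f v
      · simpa only [h, true_and] using ball v (f v) h (h1 v)
      · have : f v = 0 := by omega
        simp [this]
    have a4 := sum_le_sum a3
    rw [sum_add_distrib, ← mul_sum] at a4
    have a5 := sum_nat_mod univ 2 f
    simp only [card_univ, Fintype.card_fin] at a2
    omega

lemma mp : IsGreatest (multipackingSizes G0) 2 := by
  constructor
  · refine ⟨{0, 18}, fun v k hk => ?_, by decide⟩
    rcases hk.eq_or_lt with rfl | hk
    · simp only [dist0]; revert v; decide +kernel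
    · exact (card_filter_le _ _).trans (card_le_two.trans hk)
  · rintro m ⟨M, hM, hm⟩
    rw [hm]
    simp only [dist0] at hM
    by_contra hc
    obtain ⟨x, hx, y, hy, z, hz, hxy, hxz, hyz⟩ := two_lt_card.mp (not_le.mp hc)
    have k1 : ∀ a ∈ M, ∀ b ∈ M, a ≠ b → 3 ≤ D a.val b.val := by
      intro a ha b hb hab
      by_contra hh
      have : ∀ a b : Fin 24, ¬ 3 ≤ D a.val b.val → ∃ v : Fin 24, D a.val v.val ≤ 1 ∧ D b.val v.val ≤ 1 := by
        decide +kernel
      obtain ⟨v, h1, h2⟩ := this a b hh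
      have := one_lt_card.mpr ⟨a, mem_filter.mpr ⟨ha, h1⟩, b,
        (mem_filter (p := fun u : Fin 24 => D u.val v.val ≤ 1)).mpr ⟨hb, h2⟩, hab⟩
      have := hM v 1 le_rfl
      omega
    have k2 : ∀ x y : Fin 24, 3 ≤ D x.val y.val → ∀ z : Fin 24, 3 ≤ D x.val z.val ∧ 3 ≤ D y.val z.val →
        ∃ v : Fin 24, D x.val v.val ≤ 2 ∧ D y.val v.val ≤ 2 ∧ D z.val v.val ≤ 2 := by decide +kernel
    obtain ⟨v, h1, h2, h3⟩ := k2 x y (k1 x hx y hy hxy) z ⟨k1 x hx z hz hxz, k1 y hy z hz hyz⟩
    have := two_lt_card.mpr ⟨x, mem_filter.mpr ⟨hx, h1⟩, y, mem_filter.mpr ⟨hy, h2⟩, z,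
      (mem_filter (p := fun u : Fin 24 => D u.val v.val ≤ 2)).mpr ⟨hz, h3⟩, hxy, hxz, hyz⟩
    have := hM v 2 (by norm_num)
    omega

lemma fr : IsLeast (fractionalCosts G0) ((3 : ℕ) : ℝ) := by
  constructor
  · refine ⟨fun _ k => if k = 2 then 1 / 16 else 0, fun v k => by
      dsimp only
      split_ifs <;> norm_num, fun u => ?_, ?_⟩
    · simp only [ecc0, dist0]
      have : ∀ v : Fin 24, ∑ k ∈ (Icc 1 4).filter (fun k => D u.val v.val ≤ k),
          (if k = 2 then (1 / 16 : ℝ) else 0) = if D u.val v.val ≤ 2 then 1 / 16 else 0 := by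
        intro v
        rw [sum_ite_eq']
        simp
      simp only [this]
      rw [← sum_filter, sum_const, ball2]
      norm_num
    · simp only [ecc0, mul_ite, mul_zero, sum_ite_eq']
      norm_num
  · rintro c ⟨x, h0, h1, hc⟩
    rw [hc]
    simp only [ecc0, dist0] at h1 ⊢
    have a1 := sum_le_sum (fun u (_ : u ∈ (univ : Finset (Fin 24))) => h1 u)
    rw [sum_comm] at a1
    have a2 : ∀ v ∈ (univ : Finset (Fin 24)),
        ∑ u : Fin 24, ∑ k ∈ (Icc 1 4).filter (fun k => D u.val v.val ≤ k), x v k ≤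
          8 * ∑ k ∈ Icc (1 : ℕ) 4, (k : ℝ) * x v k := by
      intro v _
      simp only [sum_filter]
      rw [sum_comm, mul_sum]
      refine sum_le_sum (fun k hk => ?_)
      rw [← sum_filter, sum_const, nsmul_eq_mul, ← mul_assoc]
      refine mul_le_mul_of_nonneg_right ?_ (h0 v k)
      have := ball v k (mem_Icc.mp hk).1 (mem_Icc.mp hk).2
      have h : (univ.filter (fun u : Fin 24 => D u.val v.val ≤ k)).card ≤ 8 * k := by omega
      exact_mod_cast h
    have a3 := a1.trans (sum_le_sum a2)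
    rw [← mul_sum] at a3
    simp only [sum_const, card_univ, Fintype.card_fin, nsmul_eq_mul] at a3
    push_cast at a3 ⊢
    linarith

theorem result : ∃ (n : ℕ) (G : SimpleGraph (Fin n)), G.Connected ∧ ∃ m f b : ℕ,
    IsGreatest (multipackingSizes G) m ∧ IsLeast (fractionalCosts G) (f : ℝ) ∧
    IsLeast (broadcastCosts G) b ∧ m < f ∧ f < b :=
  ⟨24, G0, conn_of G0 0 (fun v => D v.val 0) (by decide +kernel), 2, 3, 4, mp, fr, bc,
    by norm_num, by norm_num⟩

end Pool.Agent.Results.MP_93535d_co.Example
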